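import Pool.Agent.FS.FixAlph.Large

/-!
Over every large enough alphabet, finiteness of the group generated by an invertible Mealy
automaton is undecidable, even for definite automata (some length `k` is such that every word of
length `k` sends all states to one state; reset automata are the case `k = 1`).

An input is an automaton with states `Fin n`, alphabet `Fin m` (with `m` fixed), transitions
`δ x i` and output permutations `ρ x`, given by `n` and the tables of `δ` and `ρ`.
`mealy δ ρ x` is the map `ρ_x` on words: `ρ_x(a u) = ρ_x(a) ρ_{δ x a}(u)`; it is a bijection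
(`mealy_bijective`), and the group is generated by these bijections of the set of words.
The algorithm `D` is only asked to halt on descriptions of definite automata.
-/

open Pool.Agent.FS.FixAlph in
theorem Pool.Agent.Results.MP_322aed_lc.LargeAlphabets.result :
    ∃ m₀ : ℕ, ∀ m : ℕ, m₀ ≤ m → ¬ ∃ D : ℕ × List (List ℕ) × List (List ℕ) →. Bool, Partrec D ∧
      ∀ (n : ℕ) (δ : Fin n → Fin m → Fin n) (ρ : Fin n → Equiv.Perm (Fin m)),
        (∃ k : ℕ, ∀ u : List (Fin m), u.length = k → ∀ x y, u.foldl δ x = u.foldl δ y) →
        ∃ b ∈ D (n, List.ofFn fun x => List.ofFn fun i => (δ x i).val,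
            List.ofFn fun x => List.ofFn fun i => (ρ x i).val),
          (b = true ↔ Finite (Subgroup.closure
            {g : Equiv.Perm (List (Fin m)) | ∃ x, ⇑g = mealy δ ρ x})) :=
  large_alphabets
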