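import Pool.Agent.Lib.MP_322aed_lc.Final

/-!
Finiteness of the group generated by an invertible reset Mealy automaton is undecidable.

An input is an automaton with states `Fin n`, alphabet `Fin m`, reset map `f` and output
permutations `ρ x`, given by `n`, `m`, the table of `f` and the tables of the `ρ x`.
`wordMap f ρ x` is the map `ρ_x` on words: `ρ_x(a u) = ρ_x(a) ρ_{f a}(u)`; it is a bijection
(`wordMap_bijective`), and the group is generated by these bijections of the set of words.
The algorithm `D` is only asked to halt on descriptions of automata.
-/

open Pool.Agent.Lib.MP_322aed_lc in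
theorem Pool.Agent.Results.MP_322aed_lc.Undecidable.result :
    ¬ ∃ D : ℕ × ℕ × List ℕ × List (List ℕ) →. Bool, Partrec D ∧
      ∀ (n m : ℕ) (f : Fin m → Fin n) (ρ : Fin n → Equiv.Perm (Fin m)),
        ∃ b ∈ D (n, m, List.ofFn fun i => (f i).val,
            List.ofFn fun x => List.ofFn fun i => (ρ x i).val),
          (b = true ↔ Finite (Subgroup.closure
            {g : Equiv.Perm (List (Fin m)) | ∃ x, ⇑g = wordMap f ρ x})) :=
  undecidable
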